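import Pool.Agent.Helper75.PT.TA

/-!
# Pseudo-intersection and tower numbers at all regular uncountable cardinals

For every regular uncountable cardinal `κ`, without any assumption on cardinal arithmetic:
* if `𝔭(κ) = κ⁺` then `𝔱(κ) = κ⁺`;
* if `𝔱(κ) ≤ κ⁺⁺`, or `𝔟(κ) ≤ κ⁺⁺`, or `2^κ ≤ κ⁺⁺`, then `𝔭(κ) = 𝔱(κ)`;
* `κ⁺ ≤ 𝔭(κ) ≤ 𝔱(κ) ≤ 𝔟(κ)`.
So `𝔭(κ) < 𝔱(κ)` implies `κ⁺⁺ ≤ 𝔭(κ)` and `κ⁺⁺⁺ ≤ 𝔱(κ) ≤ 𝔟(κ)`, for every regular uncountable `κ`.

Definitions (`Pool.Agent.Helper75.PT.Defs`). Subsets of `κ` are sets of ordinals below `κ`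
(`Pt κ = κ.ord.ToType`). `AlmostLE κ A F` is `|A \ F| < κ`. `SIP`, `IsPseudoInter`, `IsTower` and the
cardinals `p κ`, `t κ` are the strong intersection property, pseudo-intersections of cardinality
`κ`, towers, and the numbers `𝔭(κ)`, `𝔱(κ)`, as in the problem. `b κ` is the bounding number `𝔟(κ)`:
the least cardinality of a family of functions from `κ` to `κ` which is unbounded modulo sets with
fewer than `κ` elements.

Garti proved the first statement under the assumption `κ^{<κ} = κ`.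

Steps of the proof. For a function `g` from `κ` to `κ` let `D(g)` be the set of its closure points.
* `𝔱(κ) ≤ 𝔟(κ)`: let `f_i`, `i < 𝔟(κ)`, be unbounded. Choose by recursion functions `g_i ≥ f_i` such
  that the sets `D(g_i)` decrease modulo small sets; the strong intersection property is automatic
  for sets of closure points, and a pseudo-intersection `P` gives the next function, which maps `ξ`
  to an element of `P` above `ξ`. At some stage there is no pseudo-intersection, as it would give a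
  bound of the `f_i`.
* If `𝔟(κ) > κ⁺`: let `F_a`, `a < κ⁺`, be a family with the strong intersection property and without
  pseudo-intersection. There are sets `P(a, ξ)`, `a < κ⁺`, `ξ < κ`, of ordinals `≤ a`, with fewer
  than `κ` elements, increasing in `ξ`, with union `a + 1`, such that `P(c, ξ) ⊆ P(a, ξ)` for
  `c ∈ P(a, ξ)`. There is `G` such that for every `a` and all large `ξ` the intersection of the `F_c`,
  `c ∈ P(a, ξ)`, meets the interval `[ξ, G(ξ)]`. Let `s(x)` be the greatest closure point of `G` below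
  or at `x`, and `T_a` the set of the `x` which are in `F_c` for all `c ∈ P(a, s(x))`. Then `T_a`,
  `a < κ⁺`, is a tower.
-/

set_option autoImplicit false

open Cardinal Order

universe u

namespace Pool.Agent.Results.MP_b10269_lc.AllRegularCardinals

open Pool.Agent.Helper75.PT

/-- `𝔭(κ) = κ⁺` implies `𝔱(κ) = κ⁺` for every regular uncountable cardinal `κ`; and `𝔭(κ) = 𝔱(κ)`
unless `𝔱(κ)`, `𝔟(κ)` and `2^κ` are all greater than `κ⁺⁺`. -/
theorem result (κ : Cardinal.{u}) (h₁ : κ.IsRegular) (h₂ : ℵ₀ < κ) :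
    (p κ = succ κ → t κ = succ κ) ∧
    (t κ ≤ succ (succ κ) ∨ b κ ≤ succ (succ κ) ∨ 2 ^ κ ≤ succ (succ κ) → p κ = t κ) ∧
    (p κ < t κ → succ (succ κ) ≤ p κ ∧ succ (succ (succ κ)) ≤ t κ) ∧
    succ κ ≤ p κ ∧ p κ ≤ t κ ∧ t κ ≤ b κ := by
  refine ⟨fun h => le_antisymm (t_le_of_p h₁ h₂ h) (h ▸ p_le_t h₁ h₂), ?_, ?_,
    succ_le_p h₁ h₂, p_le_t h₁ h₂, t_le_b h₁ h₂⟩
  · rintro (h | h | h)
    · exact eq_of_t_le h₁ h₂ h
    · exact eq_of_t_le h₁ h₂ ((t_le_b h₁ h₂).trans h)
    · exact eq_of_t_le h₁ h₂ ((t_le_two_power h₁ h₂).trans h)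
  · intro h
    constructor
    · refine succ_le_of_lt (lt_of_le_of_ne (succ_le_p h₁ h₂) fun h' => ?_)
      exact absurd (t_le_of_p h₁ h₂ h'.symm) (not_le.2 (h' ▸ h))
    · refine succ_le_of_lt (not_le.1 fun h' => ?_)
      exact absurd (eq_of_t_le h₁ h₂ h') h.ne

end Pool.Agent.Results.MP_b10269_lc.AllRegularCardinals
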